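import Mathlib

namespace Q8.LEO

open Matrix

variable {K : Type*} [Field K]

/-- irreducible tridiagonal matrices -/
def Tri {n : ℕ} (M : Matrix (Fin n) (Fin n) K) : Prop :=
  (∀ i j : Fin n, (i : ℕ) + 1 < j ∨ (j : ℕ) + 1 < i → M i j = 0) ∧
  ∀ i j : Fin n, (i : ℕ) + 1 = j ∨ (j : ℕ) + 1 = i → M i j ≠ 0

/-- In the basis formed by the columns of the invertible matrix `P` the map `A` is irreducible
tridiagonal and `B` is the diagonal matrix with entries `θs`. -/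
def InBasis {n : ℕ} (A B P : Matrix (Fin n) (Fin n) K) (θs : Fin n → K) : Prop :=
  ∃ Q : Matrix (Fin n) (Fin n) K, P * Q = 1 ∧ Q * P = 1 ∧ Tri (Q * A * P) ∧
    Q * B * P = diagonal θs

/-- `A, B` is a Leonard pair on `K ^ n` and `θ`, `θs` are standard orderings of the eigenvalues
of `A` and of `B`. -/
def LeonardPair {n : ℕ} (A B : Matrix (Fin n) (Fin n) K) (θ θs : Fin n → K) : Prop :=
  (∃ P, InBasis A B P θs) ∧ ∃ P, InBasis B A P θ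

/-- `θ_{i-2} - θ_{i+1} = (β + 1) (θ_{i-1} - θ_i)` for `2 ≤ i ≤ d - 1`, `n = d + 1` -/
def Recurrence {n : ℕ} (β : K) (θ : Fin n → K) : Prop :=
  ∀ (i : ℕ) (h : i + 3 < n), θ ⟨i, by omega⟩ - θ ⟨i + 3, h⟩ =
    (β + 1) * (θ ⟨i + 1, by omega⟩ - θ ⟨i + 2, by omega⟩)

/-- the relations of the equitable presentation of `U_q(sl₂)` -/
structure Equitable {n : ℕ} (q : K) (X Xi Y Z : Matrix (Fin n) (Fin n) K) : Prop where
  xxi : X * Xi = 1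
  xix : Xi * X = 1
  xy : (q - q⁻¹)⁻¹ • (q • (X * Y) - q⁻¹ • (Y * X)) = 1
  yz : (q - q⁻¹)⁻¹ • (q • (Y * Z) - q⁻¹ • (Z * Y)) = 1
  zx : (q - q⁻¹)⁻¹ • (q • (Z * X) - q⁻¹ • (X * Z)) = 1

/-- no invariant subspaces of `K ^ n` except `0` and `K ^ n` -/
def Irred {n : ℕ} (X Xi Y Z : Matrix (Fin n) (Fin n) K) : Prop :=
  ∀ W : Submodule K (Fin n → K), (∀ w ∈ W, X *ᵥ w ∈ W) → (∀ w ∈ W, Xi *ᵥ w ∈ W) →
    (∀ w ∈ W, Y *ᵥ w ∈ W) → (∀ w ∈ W, Z *ᵥ w ∈ W) → W = ⊥ ∨ W = ⊤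

/-- There is an irreducible `U_q(sl₂)`-module structure on `K ^ n` for which `A` is in the span of
`1, X, Y, XY` and `B` is in the span of `1, Y, Z, YZ`. -/
def HasModule {n : ℕ} (q : K) (A B : Matrix (Fin n) (Fin n) K) : Prop :=
  ∃ X Xi Y Z : Matrix (Fin n) (Fin n) K, Equitable q X Xi Y Z ∧ Irred X Xi Y Z ∧
    (∃ a : Fin 4 → K, A = a 0 • 1 + a 1 • X + a 2 • Y + a 3 • (X * Y)) ∧
    ∃ b : Fin 4 → K, B = b 0 • 1 + b 1 • Y + b 2 • Z + b 3 • (Y * Z)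

end Q8.LEO
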