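import Pool.Agent.Q8.LEO.Mod

namespace Q8.LEO

open Matrix

variable {K : Type*} [Field K] [LinearOrder K] [IsStrictOrderedRing K]

/-- upper bidiagonal -/
def NA (α : Fin 4 → K) (u : Fin 4 → K) : Matrix (Fin 4) (Fin 4) K :=
  !![α 0, u 1, 0, 0; 0, α 1, u 2, 0; 0, 0, α 2, u 3; 0, 0, 0, α 3]

/-- lower bidiagonal -/
def NB (β : Fin 4 → K) (l : Fin 4 → K) : Matrix (Fin 4) (Fin 4) K :=
  !![β 0, 0, 0, 0; l 1, β 1, 0, 0; 0, l 2, β 2, 0; 0, 0, l 3, β 3]

omit [LinearOrder K] [IsStrictOrderedRing K] in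
lemma tr_eq {M M' S : Matrix (Fin 4) (Fin 4) K} (hS : IsUnit S) (h : M * S = S * M') :
    M.trace = M'.trace := by
  have hd : IsUnit S.det := (Matrix.isUnit_iff_isUnit_det S).1 hS
  have e : M = S * M' * S⁻¹ := by
    rw [← h, Matrix.mul_assoc, Matrix.mul_nonsing_inv S hd, Matrix.mul_one]
  rw [e, Matrix.trace_mul_comm, ← Matrix.mul_assoc, Matrix.nonsing_inv_mul S hd, Matrix.one_mul]

omit [LinearOrder K] [IsStrictOrderedRing K] in
lemma mul_conj {M M' L L' S : Matrix (Fin 4) (Fin 4) K} (h : M * S = S * M')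
    (h' : L * S = S * L') : (M * L) * S = S * (M' * L') := by
  rw [Matrix.mul_assoc, h', ← Matrix.mul_assoc, h, Matrix.mul_assoc]

omit [LinearOrder K] [IsStrictOrderedRing K] in
lemma sub_conj {M M' S : Matrix (Fin 4) (Fin 4) K} (h : M * S = S * M') (c : K) :
    (M - c • (1 : Matrix (Fin 4) (Fin 4) K)) * S = S * (M' - c • (1 : Matrix (Fin 4) (Fin 4) K)) := by
  rw [Matrix.sub_mul, h, Matrix.mul_sub, Matrix.smul_mul, Matrix.one_mul, Matrix.mul_smul,
    Matrix.mul_one]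

/-- the polynomial with the roots `th` -/
def pol (M : Matrix (Fin 4) (Fin 4) K) : Matrix (Fin 4) (Fin 4) K :=
  (M - (255 : K) • (1 : Matrix (Fin 4) (Fin 4) K)) * ((M - (60 : K) • (1 : Matrix (Fin 4) (Fin 4) K)) *
    ((M - (0 : K) • (1 : Matrix (Fin 4) (Fin 4) K)) * (M - (-60 : K) • (1 : Matrix (Fin 4) (Fin 4) K))))

/-- the polynomial with the roots `ts` -/
def pols (M : Matrix (Fin 4) (Fin 4) K) : Matrix (Fin 4) (Fin 4) K :=
  (M - (62 : K) • (1 : Matrix (Fin 4) (Fin 4) K)) * ((M - (8 : K) • (1 : Matrix (Fin 4) (Fin 4) K)) *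
    ((M - (-28 : K) • (1 : Matrix (Fin 4) (Fin 4) K)) * (M - (-127 : K) • (1 : Matrix (Fin 4) (Fin 4) K))))

omit [LinearOrder K] [IsStrictOrderedRing K] in
lemma pol_conj {M M' S : Matrix (Fin 4) (Fin 4) K} (h : M * S = S * M') :
    pol M * S = S * pol M' :=
  mul_conj (sub_conj h _) (mul_conj (sub_conj h _) (mul_conj (sub_conj h _) (sub_conj h _)))

omit [LinearOrder K] [IsStrictOrderedRing K] in
lemma pols_conj {M M' S : Matrix (Fin 4) (Fin 4) K} (h : M * S = S * M') :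
    pols M * S = S * pols M' :=
  mul_conj (sub_conj h _) (mul_conj (sub_conj h _) (mul_conj (sub_conj h _) (sub_conj h _)))

lemma pol_AA : pol (AA : Matrix (Fin 4) (Fin 4) K) = 0 := by
  have h := pol_conj (A_PP (K := K))
  have h0 : pol (diagonal (th : Fin 4 → K)) = 0 := by
    have : ∀ c : K, diagonal (th : Fin 4 → K) - c • (1 : Matrix (Fin 4) (Fin 4) K) =
        diagonal (fun i => th i - c) := by
      intro c
      rw [← Matrix.diagonal_one, ← Matrix.diagonal_smul, Matrix.diagonal_sub]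
      congr 1
      funext i
      simp
    unfold pol
    rw [this, this, this, this, Matrix.diagonal_mul_diagonal, Matrix.diagonal_mul_diagonal,
      Matrix.diagonal_mul_diagonal]
    rw [show (0 : Matrix (Fin 4) (Fin 4) K) = diagonal 0 by simp]
    congr 1
    funext i
    fin_cases i <;> simp [th]
  rw [h0, Matrix.mul_zero] at h
  have := congrArg (fun T => T * (PI : Matrix (Fin 4) (Fin 4) K)) h
  simp only [Matrix.mul_assoc, PP_PI, Matrix.mul_one, Matrix.zero_mul] at this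
  exact this

lemma pols_BB : pols (BB : Matrix (Fin 4) (Fin 4) K) = 0 := by
  have hB : (BB : Matrix (Fin 4) (Fin 4) K) = diagonal ts := by
    apply Matrix.ext
    intro i j
    fin_cases i <;> fin_cases j <;> simp [BB, ts, Matrix.diagonal]
  have : ∀ c : K, diagonal (ts : Fin 4 → K) - c • (1 : Matrix (Fin 4) (Fin 4) K) =
      diagonal (fun i => ts i - c) := by
    intro c
    rw [← Matrix.diagonal_one, ← Matrix.diagonal_smul, Matrix.diagonal_sub]
    congr 1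
    funext i
    simp
  unfold pols
  rw [hB, this, this, this, this, Matrix.diagonal_mul_diagonal, Matrix.diagonal_mul_diagonal,
    Matrix.diagonal_mul_diagonal]
  rw [show (0 : Matrix (Fin 4) (Fin 4) K) = diagonal 0 by simp]
  congr 1
  funext i
  fin_cases i <;> simp [ts]

lemma alpha_cases {x0 x1 x2 x3 : K} (h0 : (x0 - 255) * ((x0 - 60) * (x0 * (x0 + 60))) = 0)
    (h1 : (x1 - 255) * ((x1 - 60) * (x1 * (x1 + 60))) = 0)
    (h2 : (x2 - 255) * ((x2 - 60) * (x2 * (x2 + 60))) = 0)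
    (h3 : (x3 - 255) * ((x3 - 60) * (x3 * (x3 + 60))) = 0)
    (hs : x0 + x1 + x2 + x3 = 255) (hr : x0 - x3 = 21 / 4 * (x1 - x2)) :
    (x0 = 255 ∧ x1 = 60 ∧ x2 = 0 ∧ x3 = -60) ∨ (x0 = -60 ∧ x1 = 0 ∧ x2 = 60 ∧ x3 = 255) := by
  simp only [mul_eq_zero] at h0 h1 h2 h3
  have e3 : x3 = 255 - x0 - x1 - x2 := by linarith
  subst e3
  rcases h1 with h1 | h1 | h1 | h1 <;> rcases h2 with h2 | h2 | h2 | h2 <;>
    rcases h0 with h0 | h0 | h0 | h0 <;>
    first
      | (exfalso; linarith)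
      | (exfalso; rcases h3 with h3 | h3 | h3 | h3 <;> linarith)
      | (left; refine ⟨?_, ?_, ?_, ?_⟩ <;> linarith)
      | (right; refine ⟨?_, ?_, ?_, ?_⟩ <;> linarith)

lemma beta_cases {x0 x1 x2 x3 : K} (h0 : (x0 - 62) * ((x0 - 8) * ((x0 + 28) * (x0 + 127))) = 0)
    (h1 : (x1 - 62) * ((x1 - 8) * ((x1 + 28) * (x1 + 127))) = 0)
    (h2 : (x2 - 62) * ((x2 - 8) * ((x2 + 28) * (x2 + 127))) = 0)
    (h3 : (x3 - 62) * ((x3 - 8) * ((x3 + 28) * (x3 + 127))) = 0)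
    (hs : x0 + x1 + x2 + x3 = -85) (hr : x0 - x3 = 21 / 4 * (x1 - x2)) :
    (x0 = 62 ∧ x1 = 8 ∧ x2 = -28 ∧ x3 = -127) ∨
      (x0 = -127 ∧ x1 = -28 ∧ x2 = 8 ∧ x3 = 62) := by
  simp only [mul_eq_zero] at h0 h1 h2 h3
  have e3 : x3 = -85 - x0 - x1 - x2 := by linarith
  subst e3
  rcases h1 with h1 | h1 | h1 | h1 <;> rcases h2 with h2 | h2 | h2 | h2 <;>
    rcases h0 with h0 | h0 | h0 | h0 <;>
    first
      | (exfalso; linarith)
      | (exfalso; rcases h3 with h3 | h3 | h3 | h3 <;> linarith)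
      | (left; refine ⟨?_, ?_, ?_, ?_⟩ <;> linarith)
      | (right; refine ⟨?_, ?_, ?_, ?_⟩ <;> linarith)

lemma contra {ε a0 a1 a2 a3 b0 b1 b2 b3 x0 x1 x2 x3 z0 z1 z2 z3 : K} (hε : ε = 1 ∨ ε = -1)
    (hx0 : x0 = a0 + a3 + a1 * ε / 8 + a2 * 8 * ε) (hx1 : x1 = a0 + a3 + a1 * ε / 2 + a2 * 2 * ε)
    (hx2 : x2 = a0 + a3 + a1 * 2 * ε + a2 * ε / 2) (hx3 : x3 = a0 + a3 + a1 * 8 * ε + a2 * ε / 8)
    (hz0 : z0 = b0 + b3 + b2 * ε / 8 + b1 * 8 * ε) (hz1 : z1 = b0 + b3 + b2 * ε / 2 + b1 * 2 * ε)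
    (hz2 : z2 = b0 + b3 + b2 * 2 * ε + b1 * ε / 2) (hz3 : z3 = b0 + b3 + b2 * 8 * ε + b1 * ε / 8)
    (hx : (x0 = 255 ∧ x1 = 60 ∧ x2 = 0 ∧ x3 = -60) ∨ (x0 = -60 ∧ x1 = 0 ∧ x2 = 60 ∧ x3 = 255))
    (hz : (z0 = 62 ∧ z1 = 8 ∧ z2 = -28 ∧ z3 = -127) ∨
      (z0 = -127 ∧ z1 = -28 ∧ z2 = 8 ∧ z3 = 62))
    {p1 p2 p3 : K} (hp1 : p1 = -189 / 16 * ((a1 * ε / 2 + a3) * (b2 * ε / 2 + b3)))
    (hp2 : p2 = -225 / 64 * ((a1 * 2 * ε + a3) * (b2 * 2 * ε + b3)))
    (hp3 : p3 = -189 / 256 * ((a1 * 8 * ε + a3) * (b2 * 8 * ε + b3)))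
    (h1 : x0 * z0 + x1 * z1 + x2 * z2 + x3 * z3 + (p1 + p2 + p3) = -5592)
    (h2 : x0 ^ 2 * z0 + x1 ^ 2 * z1 + x2 ^ 2 * z2 + x3 ^ 2 * z3 +
      (p1 * (x0 + x1) + p2 * (x1 + x2) + p3 * (x2 + x3)) = -735480) : False := by
  rcases hε with rfl | rfl <;> rcases hx with ⟨e0, e1, e2, e3⟩ | ⟨e0, e1, e2, e3⟩ <;>
    rcases hz with ⟨f0, f1, f2, f3⟩ | ⟨f0, f1, f2, f3⟩ <;>
  · rw [e0] at hx0 h1 h2
    rw [e1] at hx1 h1 h2
    rw [e2] at hx2 h1 h2
    rw [e3] at hx3 h1 h2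
    rw [f0] at hz0 h1 h2
    rw [f1] at hz1 h1 h2
    rw [f2] at hz2 h1 h2
    rw [f3] at hz3 h1 h2
    first
      | have ha : a1 = -8 := by linarith
        have hb : b2 = -16 := by linarith
        subst ha hb
        rw [hp1, hp2, hp3] at h1 h2
        nlinarith [sq_nonneg (-8 * b3 - (-16) * a3)]
      | have ha : a1 = -8 := by linarith
        have hb : b2 = 8 := by linarith
        subst ha hb
        rw [hp1, hp2, hp3] at h1 h2
        nlinarith [sq_nonneg (-8 * b3 - (8) * a3)]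
      | have ha : a1 = 32 := by linarith
        have hb : b2 = -16 := by linarith
        subst ha hb
        rw [hp1, hp2, hp3] at h1 h2
        nlinarith [sq_nonneg (32 * b3 - (-16) * a3)]
      | have ha : a1 = 32 := by linarith
        have hb : b2 = 8 := by linarith
        subst ha hb
        rw [hp1, hp2, hp3] at h1 h2
        nlinarith [sq_nonneg (32 * b3 - (8) * a3)]
      | have ha : a1 = 8 := by linarith
        have hb : b2 = 16 := by linarith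
        subst ha hb
        rw [hp1, hp2, hp3] at h1 h2
        nlinarith [sq_nonneg (8 * b3 - (16) * a3)]
      | have ha : a1 = 8 := by linarith
        have hb : b2 = -8 := by linarith
        subst ha hb
        rw [hp1, hp2, hp3] at h1 h2
        nlinarith [sq_nonneg (8 * b3 - (-8) * a3)]
      | have ha : a1 = -32 := by linarith
        have hb : b2 = 16 := by linarith
        subst ha hb
        rw [hp1, hp2, hp3] at h1 h2
        nlinarith [sq_nonneg (-32 * b3 - (16) * a3)]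
      | have ha : a1 = -32 := by linarith
        have hb : b2 = -8 := by linarith
        subst ha hb
        rw [hp1, hp2, hp3] at h1 h2
        nlinarith [sq_nonneg (-32 * b3 - (-8) * a3)]

end Q8.LEO
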