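import Pool.Agent.Q8.LEO.NoMod

namespace Q8.LEO

open Matrix

variable {K : Type*} [Field K] [LinearOrder K] [IsStrictOrderedRing K]

/-- the matrix with the columns `v_0, ..., v_3` -/
def SS (v : ℕ → Fin 4 → K) : Matrix (Fin 4) (Fin 4) K := Matrix.of fun i k => v k i

lemma isUnit_SS {v : ℕ → Fin 4 → K} (h4 : ∀ k, 4 ≤ k → v k = 0)
    (hs : Submodule.span K (Set.range v) = ⊤) : IsUnit (SS v) := by
  rw [← Matrix.linearIndependent_cols_iff_isUnit]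
  apply linearIndependent_of_top_le_span_of_card_eq_finrank
  · rw [← hs, Submodule.span_le]
    rintro _ ⟨k, rfl⟩
    rcases lt_or_ge k 4 with h | h
    · exact Submodule.subset_span ⟨⟨k, h⟩, rfl⟩
    · rw [h4 k h]
      exact Submodule.zero_mem _
  · simp

/-- `ν_1, ν_2, ν_3` for `μ² = 64` -/
def nn : Fin 4 → K := ![0, -189 / 16, -225 / 64, -189 / 256]

lemma conj_of {M N : Matrix (Fin 4) (Fin 4) K} {v : ℕ → Fin 4 → K}
    (h : ∀ k : Fin 4, M *ᵥ v k = ∑ i : Fin 4, N i k • v i) : M * SS v = SS v * N := by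
  apply Matrix.ext
  intro i k
  have := congrFun (h k) i
  rw [Matrix.mul_apply]
  simp only [Matrix.mulVec, dotProduct, Finset.sum_apply, Pi.smul_apply, smul_eq_mul] at this
  simp only [SS, Matrix.of_apply]
  rw [this, Matrix.mul_apply]
  apply Finset.sum_congr rfl
  intro j _
  rw [Matrix.of_apply, mul_comm]

lemma A_vv {X Y : Matrix (Fin 4) (Fin 4) K} {a : Fin 4 → K}
    (hA : (AA : Matrix (Fin 4) (Fin 4) K) = a 0 • 1 + a 1 • X + a 2 • Y + a 3 • (X * Y))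
    {v : Fin 4 → K} {y : K} (hy : y ≠ 0) (h : Y *ᵥ v = y • v) :
    AA *ᵥ v = (a 0 + a 3 + a 1 * y⁻¹ + a 2 * y) • v -
      (a 1 * y⁻¹ + a 3) • ((1 - X * Y) *ᵥ v) := by
  have hX : X *ᵥ v = y⁻¹ • (v - (1 - X * Y) *ᵥ v) := by
    have h1 : (1 - X * Y) *ᵥ v = v - X *ᵥ (Y *ᵥ v) := by
      rw [Matrix.sub_mulVec, Matrix.one_mulVec, Matrix.mulVec_mulVec]
    rw [h1, h, Matrix.mulVec_smul, sub_sub_cancel, smul_smul, inv_mul_cancel₀ hy, one_smul]
  have hXY : (X * Y) *ᵥ v = v - (1 - X * Y) *ᵥ v := by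
    rw [Matrix.sub_mulVec, Matrix.one_mulVec, sub_sub_cancel]
  rw [hA, Matrix.add_mulVec, Matrix.add_mulVec, Matrix.add_mulVec, Matrix.smul_mulVec,
    Matrix.smul_mulVec, Matrix.smul_mulVec, Matrix.smul_mulVec, Matrix.one_mulVec, hX, hXY, h]
  module

lemma B_vv {Y Z : Matrix (Fin 4) (Fin 4) K} {b : Fin 4 → K}
    (hB : (BB : Matrix (Fin 4) (Fin 4) K) = b 0 • 1 + b 1 • Y + b 2 • Z + b 3 • (Y * Z))
    (r2 : 4 • (Y * Z) - Z * Y = 3 • (1 : Matrix (Fin 4) (Fin 4) K))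
    {w : Fin 4 → K} (k : ℕ) {y : K} (hy : y ≠ 0) (h : Y *ᵥ vv Y Z w k = y • vv Y Z w k) :
    BB *ᵥ vv Y Z w k = (b 0 + b 3 + b 2 * y⁻¹ + b 1 * y) • vv Y Z w k -
      (4 * (b 2 * y⁻¹) + b 3) • vv Y Z w (k + 1) := by
  rw [hB, Matrix.add_mulVec, Matrix.add_mulVec, Matrix.add_mulVec, Matrix.smul_mulVec,
    Matrix.smul_mulVec, Matrix.smul_mulVec, Matrix.smul_mulVec, Matrix.one_mulVec,
    Z_vv r2 k y hy h, YZ_vv r2, h]
  module

omit [LinearOrder K] [IsStrictOrderedRing K] in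
lemma pol_diag (α u : Fin 4 → K) (k : Fin 4) : pol (NA α u) k k =
    (α k - 255) * ((α k - 60) * (α k * (α k + 60))) := by
  fin_cases k <;>
    simp [pol, NA, Matrix.mul_apply, Fin.sum_univ_four, Matrix.vecMul, dotProduct]

omit [LinearOrder K] [IsStrictOrderedRing K] in
lemma pols_diag (β l : Fin 4 → K) (k : Fin 4) : pols (NB β l) k k =
    (β k - 62) * ((β k - 8) * ((β k + 28) * (β k + 127))) := by
  fin_cases k <;>
    simp [pols, NB, Matrix.mul_apply, Fin.sum_univ_four, Matrix.vecMul, dotProduct]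

omit [LinearOrder K] [IsStrictOrderedRing K] in
lemma trA (α u : Fin 4 → K) : (NA α u).trace = α 0 + α 1 + α 2 + α 3 := by
  simp [NA, Matrix.trace, Fin.sum_univ_four]

omit [LinearOrder K] [IsStrictOrderedRing K] in
lemma trB (β l : Fin 4 → K) : (NB β l).trace = β 0 + β 1 + β 2 + β 3 := by
  simp [NB, Matrix.trace, Fin.sum_univ_four]

omit [LinearOrder K] [IsStrictOrderedRing K] in
lemma trAB (α u β l : Fin 4 → K) : (NA α u * NB β l).trace =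
    α 0 * β 0 + α 1 * β 1 + α 2 * β 2 + α 3 * β 3 + (u 1 * l 1 + u 2 * l 2 + u 3 * l 3) := by
  simp [NA, NB, Matrix.trace, Matrix.mul_apply, Fin.sum_univ_four]
  ring

omit [LinearOrder K] [IsStrictOrderedRing K] in
lemma trAAB (α u β l : Fin 4 → K) : (NA α u * (NA α u * NB β l)).trace =
    α 0 ^ 2 * β 0 + α 1 ^ 2 * β 1 + α 2 ^ 2 * β 2 + α 3 ^ 2 * β 3 +
      (u 1 * l 1 * (α 0 + α 1) + u 2 * l 2 * (α 1 + α 2) + u 3 * l 3 * (α 2 + α 3)) := by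
  simp [NA, NB, Matrix.trace, Matrix.mul_apply, Fin.sum_univ_four]
  ring

lemma trAA : (AA : Matrix (Fin 4) (Fin 4) K).trace = 255 := by
  simp [AA, Matrix.trace, Fin.sum_univ_four]
  norm_num

lemma trBB : (BB : Matrix (Fin 4) (Fin 4) K).trace = -85 := by
  simp [BB, Matrix.trace, Fin.sum_univ_four]
  norm_num

lemma trAABB : ((AA : Matrix (Fin 4) (Fin 4) K) * BB).trace = -5592 := by
  simp [AA, BB, Matrix.trace, Matrix.mul_apply, Fin.sum_univ_four]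
  norm_num

lemma trAAABB : ((AA : Matrix (Fin 4) (Fin 4) K) * (AA * BB)).trace = -735480 := by
  simp [AA, BB, Matrix.trace, Matrix.mul_apply, Fin.sum_univ_four]
  norm_num

theorem no_module : ¬ HasModule (2 : K) AA BB := by
  rintro ⟨X, Xi, Y, Z, hE, hirr, ⟨a, hA⟩, ⟨b, hB⟩⟩
  have r1 := rel_of hE.xy
  have r2 := rel_of hE.yz
  have r3 := rel_of hE.zx
  obtain ⟨w, μ, hw, hN, hY⟩ := exists_w r1 hA hE.xxi
  have hμ := mu_ne r1 hY hN hw
  have h4 := vv_four r2 hμ hY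
  have hk : ∀ k, 4 ≤ k → vv Y Z w k = 0 := by
    intro k hk
    obtain ⟨j, rfl⟩ := Nat.exists_eq_add_of_le hk
    induction j with
    | zero => exact h4
    | succ j ih =>
      rw [← add_assoc, vv_succ, ih (by omega), Matrix.mulVec_zero]
  have hs := span_top r1 r2 r3 hE.xix hirr hY hN hw
  have hS := isUnit_SS hk hs
  have h3 : vv Y Z w 3 ≠ 0 := by
    have hli := Matrix.linearIndependent_cols_iff_isUnit.2 hS
    exact hli.ne_zero (3 : Fin 4)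
  have hν := N_vv r1 r2 r3 hY hN 3
  rw [h4, Matrix.mulVec_zero] at hν
  have hν' : nu (μ ^ 2) 4 = 0 := by
    rcases smul_eq_zero.1 hν.symm with h | h
    · exact h
    · exact absurd h h3
  have hm : μ ^ 2 = 64 := by
    simp only [nu] at hν'
    norm_num at hν'
    linarith
  have hN1 : (1 - X * Y) *ᵥ vv Y Z w 1 = (-189 / 16 : K) • vv Y Z w 0 := by
    rw [N_vv r1 r2 r3 hY hN 0, hm]
    congr 1
    simp only [nu]
    norm_num
  have hN2 : (1 - X * Y) *ᵥ vv Y Z w 2 = (-225 / 64 : K) • vv Y Z w 1 := by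
    rw [N_vv r1 r2 r3 hY hN 1, hm]
    congr 1
    simp only [nu]
    norm_num
  have hN3 : (1 - X * Y) *ᵥ vv Y Z w 3 = (-189 / 256 : K) • vv Y Z w 2 := by
    rw [N_vv r1 r2 r3 hY hN 2, hm]
    congr 1
    simp only [nu]
    norm_num
  have hN0 : (1 - X * Y) *ᵥ vv Y Z w 0 = 0 := by simpa [vv] using hN
  obtain ⟨ε, hε, he⟩ : ∃ ε : K, (ε = 1 ∨ ε = -1) ∧ μ = 8 * ε := by
    have : (μ - 8) * (μ + 8) = 0 := by linear_combination hm
    rcases mul_eq_zero.1 this with h | h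
    · exact ⟨1, Or.inl rfl, by linarith⟩
    · exact ⟨-1, Or.inr rfl, by linarith⟩
  have hε2 : ε * ε = 1 := by rcases hε with rfl | rfl <;> norm_num
  have hε0 : ε ≠ 0 := by rcases hε with rfl | rfl <;> norm_num
  have hεi : ε⁻¹ = ε := by rcases hε with rfl | rfl <;> norm_num
  have y0 : Y *ᵥ vv Y Z w 0 = (8 * ε) • vv Y Z w 0 := by
    rw [Y_vv r2 hY 0, he]; congr 1; norm_num
  have y1 : Y *ᵥ vv Y Z w 1 = (2 * ε) • vv Y Z w 1 := by
    rw [Y_vv r2 hY 1, he]; congr 1; ring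
  have y2 : Y *ᵥ vv Y Z w 2 = (ε / 2) • vv Y Z w 2 := by
    rw [Y_vv r2 hY 2, he]; congr 1; ring
  have y3 : Y *ᵥ vv Y Z w 3 = (ε / 8) • vv Y Z w 3 := by
    rw [Y_vv r2 hY 3, he]; congr 1; ring
  have i0 : (8 * ε)⁻¹ = ε / 8 := by rw [mul_inv, hεi]; ring
  have i1 : (2 * ε)⁻¹ = ε / 2 := by rw [mul_inv, hεi]; ring
  have i2 : (ε / 2)⁻¹ = 2 * ε := by rw [inv_div]; field_simp; linear_combination -hε2
  have i3 : (ε / 8)⁻¹ = 8 * ε := by rw [inv_div]; field_simp; linear_combination -hε2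
  set α : Fin 4 → K := ![a 0 + a 3 + a 1 * (ε / 8) + a 2 * (8 * ε),
    a 0 + a 3 + a 1 * (ε / 2) + a 2 * (2 * ε), a 0 + a 3 + a 1 * (2 * ε) + a 2 * (ε / 2),
    a 0 + a 3 + a 1 * (8 * ε) + a 2 * (ε / 8)] with hα
  set u : Fin 4 → K := ![0, -((a 1 * (ε / 2) + a 3) * (-189 / 16)),
    -((a 1 * (2 * ε) + a 3) * (-225 / 64)), -((a 1 * (8 * ε) + a 3) * (-189 / 256))] with hu
  set β : Fin 4 → K := ![b 0 + b 3 + b 2 * (ε / 8) + b 1 * (8 * ε),
    b 0 + b 3 + b 2 * (ε / 2) + b 1 * (2 * ε), b 0 + b 3 + b 2 * (2 * ε) + b 1 * (ε / 2),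
    b 0 + b 3 + b 2 * (8 * ε) + b 1 * (ε / 8)] with hβ
  set l : Fin 4 → K := ![0, -(4 * (b 2 * (ε / 8)) + b 3), -(4 * (b 2 * (ε / 2)) + b 3),
    -(4 * (b 2 * (2 * ε)) + b 3)] with hl
  have cA : (AA : Matrix (Fin 4) (Fin 4) K) * SS (vv Y Z w) = SS (vv Y Z w) * NA α u := by
    apply conj_of
    intro k
    rw [Fin.sum_univ_four]
    fin_cases k
    · show AA *ᵥ vv Y Z w 0 = α 0 • vv Y Z w 0 + (0 : K) • vv Y Z w 1 + (0 : K) • vv Y Z w 2 +
        (0 : K) • vv Y Z w 3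
      rw [A_vv hA (mul_ne_zero (by norm_num) hε0) y0, hN0, i0]
      show _ = (a 0 + a 3 + a 1 * (ε / 8) + a 2 * (8 * ε)) • vv Y Z w 0 + (0 : K) • vv Y Z w 1 +
        (0 : K) • vv Y Z w 2 + (0 : K) • vv Y Z w 3
      module
    · show AA *ᵥ vv Y Z w 1 = (-((a 1 * (ε / 2) + a 3) * (-189 / 16))) • vv Y Z w 0 +
        (a 0 + a 3 + a 1 * (ε / 2) + a 2 * (2 * ε)) • vv Y Z w 1 + (0 : K) • vv Y Z w 2 +
        (0 : K) • vv Y Z w 3
      rw [A_vv hA (mul_ne_zero (by norm_num) hε0) y1, hN1, i1]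
      module
    · show AA *ᵥ vv Y Z w 2 = (0 : K) • vv Y Z w 0 +
        (-((a 1 * (2 * ε) + a 3) * (-225 / 64))) • vv Y Z w 1 +
        (a 0 + a 3 + a 1 * (2 * ε) + a 2 * (ε / 2)) • vv Y Z w 2 + (0 : K) • vv Y Z w 3
      rw [A_vv hA (div_ne_zero hε0 (by norm_num)) y2, hN2, i2]
      module
    · show AA *ᵥ vv Y Z w 3 = (0 : K) • vv Y Z w 0 + (0 : K) • vv Y Z w 1 +
        (-((a 1 * (8 * ε) + a 3) * (-189 / 256))) • vv Y Z w 2 +
        (a 0 + a 3 + a 1 * (8 * ε) + a 2 * (ε / 8)) • vv Y Z w 3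
      rw [A_vv hA (div_ne_zero hε0 (by norm_num)) y3, hN3, i3]
      module
  have cB : (BB : Matrix (Fin 4) (Fin 4) K) * SS (vv Y Z w) = SS (vv Y Z w) * NB β l := by
    apply conj_of
    intro k
    rw [Fin.sum_univ_four]
    fin_cases k
    · show BB *ᵥ vv Y Z w 0 = (b 0 + b 3 + b 2 * (ε / 8) + b 1 * (8 * ε)) • vv Y Z w 0 +
        (-(4 * (b 2 * (ε / 8)) + b 3)) • vv Y Z w 1 + (0 : K) • vv Y Z w 2 +
        (0 : K) • vv Y Z w 3
      rw [B_vv hB r2 0 (mul_ne_zero (by norm_num) hε0) y0, i0]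
      module
    · show BB *ᵥ vv Y Z w 1 = (0 : K) • vv Y Z w 0 +
        (b 0 + b 3 + b 2 * (ε / 2) + b 1 * (2 * ε)) • vv Y Z w 1 +
        (-(4 * (b 2 * (ε / 2)) + b 3)) • vv Y Z w 2 + (0 : K) • vv Y Z w 3
      rw [B_vv hB r2 1 (mul_ne_zero (by norm_num) hε0) y1, i1]
      module
    · show BB *ᵥ vv Y Z w 2 = (0 : K) • vv Y Z w 0 + (0 : K) • vv Y Z w 1 +
        (b 0 + b 3 + b 2 * (2 * ε) + b 1 * (ε / 2)) • vv Y Z w 2 +
        (-(4 * (b 2 * (2 * ε)) + b 3)) • vv Y Z w 3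
      rw [B_vv hB r2 2 (div_ne_zero hε0 (by norm_num)) y2, i2]
      module
    · show BB *ᵥ vv Y Z w 3 = (0 : K) • vv Y Z w 0 + (0 : K) • vv Y Z w 1 +
        (0 : K) • vv Y Z w 2 + (b 0 + b 3 + b 2 * (8 * ε) + b 1 * (ε / 8)) • vv Y Z w 3
      rw [B_vv hB r2 3 (div_ne_zero hε0 (by norm_num)) y3, i3, h4]
      module
  have unit0 : ∀ M : Matrix (Fin 4) (Fin 4) K, SS (vv Y Z w) * M = 0 → M = 0 := by
    intro M hM
    have hd := (Matrix.isUnit_iff_isUnit_det _).1 hS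
    have := congrArg (fun T => (SS (vv Y Z w))⁻¹ * T) hM
    simp only [Matrix.mul_zero] at this
    rwa [← Matrix.mul_assoc, Matrix.nonsing_inv_mul _ hd, Matrix.one_mul] at this
  have hpA : pol (NA α u) = 0 := by
    apply unit0
    rw [← pol_conj cA, pol_AA, Matrix.zero_mul]
  have hpB : pols (NB β l) = 0 := by
    apply unit0
    rw [← pols_conj cB, pols_BB, Matrix.zero_mul]
  have tA := tr_eq hS cA
  have tB := tr_eq hS cB
  have tAB := tr_eq hS (mul_conj cA cB)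
  have tAAB := tr_eq hS (mul_conj cA (mul_conj cA cB))
  have dA : ∀ k, (α k - 255) * ((α k - 60) * (α k * (α k + 60))) = 0 := by
    intro k
    rw [← pol_diag α u k, hpA, Matrix.zero_apply]
  have dB : ∀ k, (β k - 62) * ((β k - 8) * ((β k + 28) * (β k + 127))) = 0 := by
    intro k
    rw [← pols_diag β l k, hpB, Matrix.zero_apply]
  rw [trAA, trA] at tA
  rw [trBB, trB] at tB
  rw [trAABB, trAB] at tAB
  rw [trAAABB, trAAB] at tAAB
  have a0 : α 0 = a 0 + a 3 + a 1 * (ε / 8) + a 2 * (8 * ε) := rfl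
  have a1 : α 1 = a 0 + a 3 + a 1 * (ε / 2) + a 2 * (2 * ε) := rfl
  have a2 : α 2 = a 0 + a 3 + a 1 * (2 * ε) + a 2 * (ε / 2) := rfl
  have a3 : α 3 = a 0 + a 3 + a 1 * (8 * ε) + a 2 * (ε / 8) := rfl
  have b0 : β 0 = b 0 + b 3 + b 2 * (ε / 8) + b 1 * (8 * ε) := rfl
  have b1 : β 1 = b 0 + b 3 + b 2 * (ε / 2) + b 1 * (2 * ε) := rfl
  have b2 : β 2 = b 0 + b 3 + b 2 * (2 * ε) + b 1 * (ε / 2) := rfl
  have b3 : β 3 = b 0 + b 3 + b 2 * (8 * ε) + b 1 * (ε / 8) := rfl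
  have u1 : u 1 = -((a 1 * (ε / 2) + a 3) * (-189 / 16)) := rfl
  have u2 : u 2 = -((a 1 * (2 * ε) + a 3) * (-225 / 64)) := rfl
  have u3 : u 3 = -((a 1 * (8 * ε) + a 3) * (-189 / 256)) := rfl
  have l1 : l 1 = -(4 * (b 2 * (ε / 8)) + b 3) := rfl
  have l2 : l 2 = -(4 * (b 2 * (ε / 2)) + b 3) := rfl
  have l3 : l 3 = -(4 * (b 2 * (2 * ε)) + b 3) := rfl
  clear_value α β u l
  refine contra (ε := ε) (a0 := a 0) (a1 := a 1) (a2 := a 2) (a3 := a 3) (b0 := b 0) (b1 := b 1)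
    (b2 := b 2) (b3 := b 3) (x0 := α 0) (x1 := α 1) (x2 := α 2) (x3 := α 3)
    (z0 := β 0) (z1 := β 1) (z2 := β 2) (z3 := β 3) (p1 := u 1 * l 1) (p2 := u 2 * l 2)
    (p3 := u 3 * l 3) hε (by rw [a0]; ring) (by rw [a1]; ring) (by rw [a2]; ring)
    (by rw [a3]; ring) (by rw [b0]; ring) (by rw [b1]; ring) (by rw [b2]; ring)
    (by rw [b3]; ring) ?_ ?_ (by rw [u1, l1]; ring) (by rw [u2, l2]; ring)
    (by rw [u3, l3]; ring) tAB.symm tAAB.symm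
  · refine alpha_cases (dA 0) (dA 1) (dA 2) (dA 3) tA.symm ?_
    rw [a0, a1, a2, a3]
    ring
  · refine beta_cases (dB 0) (dB 1) (dB 2) (dB 3) tB.symm ?_
    rw [b0, b1, b2, b3]
    ring

end Q8.LEO
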