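import Pool.Agent.Q8.LEO.Pair

namespace Q8.LEO

open Matrix

section ring
variable {R : Type*} [Ring R] {X Y Z : R}

lemma rel_YM (r2 : 4 • (Y * Z) - Z * Y = 3 • (1 : R)) :
    4 • (Y * (1 - Y * Z)) = (1 - Y * Z) * Y := by
  have h : Z * Y = 4 • (Y * Z) - 3 • (1 : R) := by rw [← r2]; abel
  have e : (1 - Y * Z) * Y = Y - Y * (Z * Y) := by noncomm_ring
  rw [e, h]
  noncomm_ring

lemma rel_NM (r1 : 4 • (X * Y) - Y * X = 3 • (1 : R)) (r2 : 4 • (Y * Z) - Z * Y = 3 • (1 : R))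
    (r3 : 4 • (Z * X) - X * Z = 3 • (1 : R)) :
    16 • ((1 - X * Y) * (1 - Y * Z)) =
      4 • ((1 - Y * Z) * (1 - X * Y)) + (3 • (1 : R) - 3 • (Y * Y)) := by
  have h1 : Y * X = 4 • (X * Y) - 3 • (1 : R) := by rw [← r1]; abel
  have h2 : Z * Y = 4 • (Y * Z) - 3 • (1 : R) := by rw [← r2]; abel
  have e3 : Y * (4 • (Z * X) - X * Z) * Y = Y * (3 • (1 : R)) * Y := by rw [r3]
  have e4 : Y * (4 • (Z * X) - X * Z) * Y = 4 • ((Y * Z) * (X * Y)) - (Y * X) * (Z * Y) := by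
    noncomm_ring
  rw [e4, h1, h2] at e3
  have e5 : Y * (3 • (1 : R)) * Y = 3 • (Y * Y) := by noncomm_ring
  rw [e5] at e3
  rw [← e3]
  noncomm_ring

end ring

variable {K : Type*} [Field K] [LinearOrder K] [IsStrictOrderedRing K]

/-- coefficients `ν_k`: `N v_k = ν_k v_{k-1}` -/
def nu (m : K) : ℕ → K
  | 0 => 0
  | k + 1 => 1 / 4 * nu m k + 3 / 16 * (1 - m / 16 ^ k)

section
variable {X Xi Y Z : Matrix (Fin 4) (Fin 4) K}

/-- `v_k = M ^ k w` -/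
def vv (Y Z : Matrix (Fin 4) (Fin 4) K) (w : Fin 4 → K) (k : ℕ) : Fin 4 → K :=
  ((1 - Y * Z) ^ k) *ᵥ w

lemma vv_succ (w : Fin 4 → K) (k : ℕ) : vv Y Z w (k + 1) = (1 - Y * Z) *ᵥ vv Y Z w k := by
  unfold vv
  rw [pow_succ', Matrix.mulVec_mulVec]

variable (r1 : 4 • (X * Y) - Y * X = 3 • (1 : Matrix (Fin 4) (Fin 4) K))
  (r2 : 4 • (Y * Z) - Z * Y = 3 • (1 : Matrix (Fin 4) (Fin 4) K))
  (r3 : 4 • (Z * X) - X * Z = 3 • (1 : Matrix (Fin 4) (Fin 4) K)) {w : Fin 4 → K} {μ : K}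
include r2

lemma Y_vv (hY : Y *ᵥ w = μ • w) (k : ℕ) : Y *ᵥ vv Y Z w k = (μ / 4 ^ k) • vv Y Z w k := by
  induction k with
  | zero => simpa [vv] using hY
  | succ k ih =>
    have h := rel_YM r2
    have h4 : (4 : K) • (Y *ᵥ vv Y Z w (k + 1)) = (μ / 4 ^ k) • vv Y Z w (k + 1) := by
      rw [vv_succ, Matrix.mulVec_mulVec, ← Matrix.smul_mulVec]
      have e : (4 : K) • (Y * (1 - Y * Z)) = (1 - Y * Z) * Y := by
        rw [← h, ofNat_smul_eq_nsmul]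
      rw [e, ← Matrix.mulVec_mulVec, ih, Matrix.mulVec_smul]
    have h5 : Y *ᵥ vv Y Z w (k + 1) = (4 : K)⁻¹ • ((4 : K) • (Y *ᵥ vv Y Z w (k + 1))) := by
      rw [smul_smul, inv_mul_cancel₀ (by norm_num), one_smul]
    rw [h5, h4, smul_smul]
    congr 1
    rw [pow_succ]
    field_simp

include r1 r3

lemma N_vv (hY : Y *ᵥ w = μ • w) (hN : (1 - X * Y) *ᵥ w = 0) (k : ℕ) :
    (1 - X * Y) *ᵥ vv Y Z w (k + 1) = nu (μ ^ 2) (k + 1) • vv Y Z w k := by
  have h := rel_NM r1 r2 r3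
  have key : ∀ v : Fin 4 → K, ∀ y c : K, Y *ᵥ v = y • v →
      (1 - Y * Z) *ᵥ ((1 - X * Y) *ᵥ v) = c • v →
      (1 - X * Y) *ᵥ ((1 - Y * Z) *ᵥ v) = (1 / 4 * c + 3 / 16 * (1 - y * y)) • v := by
    intro v y c h1 h2
    have h3 : (16 : K) • ((1 - X * Y) *ᵥ ((1 - Y * Z) *ᵥ v)) =
        (4 * c + 3 * (1 - y * y)) • v := by
      have e : (16 : K) • ((1 - X * Y) *ᵥ ((1 - Y * Z) *ᵥ v)) =
          (4 : K) • ((1 - Y * Z) *ᵥ ((1 - X * Y) *ᵥ v)) +
            ((3 : K) • v - (3 : K) • (Y *ᵥ (Y *ᵥ v))) := by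
        have e1 : (16 : K) • ((1 - X * Y) * (1 - Y * Z)) =
            (4 : K) • ((1 - Y * Z) * (1 - X * Y)) +
              ((3 : K) • (1 : Matrix (Fin 4) (Fin 4) K) - (3 : K) • (Y * Y)) := by
          simp only [ofNat_smul_eq_nsmul]
          exact h
        have e2 := congrArg (fun T : Matrix (Fin 4) (Fin 4) K => T *ᵥ v) e1
        simp only [Matrix.add_mulVec, Matrix.smul_mulVec, Matrix.sub_mulVec _ ((3 : K) • (Y * Y)),
          Matrix.one_mulVec, ← Matrix.mulVec_mulVec] at e2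
        exact e2
      rw [e, h2, h1, Matrix.mulVec_smul, h1]
      module
    have h4 : (1 - X * Y) *ᵥ ((1 - Y * Z) *ᵥ v) =
        (16 : K)⁻¹ • ((16 : K) • ((1 - X * Y) *ᵥ ((1 - Y * Z) *ᵥ v))) := by
      rw [smul_smul, inv_mul_cancel₀ (by norm_num), one_smul]
    rw [h4, h3, smul_smul]
    congr 1
    ring
  induction k with
  | zero =>
    rw [vv_succ]
    rw [key (vv Y Z w 0) μ 0 (by simpa using Y_vv r2 hY 0) (by simp [vv, hN])]
    congr 1
    simp [nu]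
    ring
  | succ k ih =>
    rw [vv_succ]
    rw [key (vv Y Z w (k + 1)) (μ / 4 ^ (k + 1)) (nu (μ ^ 2) (k + 1)) (Y_vv r2 hY (k + 1))
      (by rw [ih, Matrix.mulVec_smul, ← vv_succ])]
    congr 1
    show _ = 1 / 4 * nu (μ ^ 2) (k + 1) + 3 / 16 * (1 - μ ^ 2 / 16 ^ (k + 1))
    have : (16 : K) ^ (k + 1) = 4 ^ (k + 1) * 4 ^ (k + 1) := by rw [← mul_pow]; norm_num
    rw [this]
    have : (4 : K) ^ (k + 1) ≠ 0 := by positivity
    field_simp

omit r2 r3 in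
lemma mu_ne (hY : Y *ᵥ w = μ • w) (hN : (1 - X * Y) *ᵥ w = 0) (hw : w ≠ 0) : μ ≠ 0 := by
  rintro rfl
  apply hw
  have h : (1 - X * Y) *ᵥ w = w - X *ᵥ (Y *ᵥ w) := by
    rw [Matrix.sub_mulVec, Matrix.one_mulVec, Matrix.mulVec_mulVec]
  rw [hN, hY, zero_smul, Matrix.mulVec_zero, sub_zero] at h
  exact h.symm

omit r3 r2 in
lemma X_vv (v : Fin 4 → K) (y : K) (hy : y ≠ 0) (h : Y *ᵥ v = y • v) :
    X *ᵥ v = y⁻¹ • (v - (1 - X * Y) *ᵥ v) := by
  have h1 : (1 - X * Y) *ᵥ v = v - X *ᵥ (Y *ᵥ v) := by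
    rw [Matrix.sub_mulVec, Matrix.one_mulVec, Matrix.mulVec_mulVec]
  rw [h1, h, Matrix.mulVec_smul, sub_sub_cancel, smul_smul, inv_mul_cancel₀ hy, one_smul]

omit r1 r3 in
lemma YZ_vv (k : ℕ) : (Y * Z) *ᵥ vv Y Z w k = vv Y Z w k - vv Y Z w (k + 1) := by
  rw [vv_succ, Matrix.sub_mulVec, Matrix.one_mulVec, sub_sub_cancel]

omit r1 r3 in
lemma Z_vv (k : ℕ) (y : K) (hy : y ≠ 0) (h : Y *ᵥ vv Y Z w k = y • vv Y Z w k) :
    Z *ᵥ vv Y Z w k = y⁻¹ • (vv Y Z w k - (4 : K) • vv Y Z w (k + 1)) := by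
  have h1 : Z * Y = (4 : K) • (Y * Z) - (3 : K) • (1 : Matrix (Fin 4) (Fin 4) K) := by
    simp only [ofNat_smul_eq_nsmul]
    rw [← r2]
    abel
  have h2 : (Z * Y) *ᵥ vv Y Z w k = (4 : K) • ((Y * Z) *ᵥ vv Y Z w k) - (3 : K) • vv Y Z w k := by
    rw [h1, Matrix.sub_mulVec, Matrix.smul_mulVec, Matrix.smul_mulVec, Matrix.one_mulVec]
  rw [YZ_vv r2, ← Matrix.mulVec_mulVec, h, Matrix.mulVec_smul] at h2
  have h3 : Z *ᵥ vv Y Z w k = y⁻¹ • (y • (Z *ᵥ vv Y Z w k)) := by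
    rw [smul_smul, inv_mul_cancel₀ hy, one_smul]
  rw [h3, h2]
  congr 1
  module

lemma span_top (hxi : Xi * X = 1) (hirr : Irred X Xi Y Z) (hY : Y *ᵥ w = μ • w)
    (hN : (1 - X * Y) *ᵥ w = 0) (hw : w ≠ 0) :
    Submodule.span K (Set.range (vv Y Z w)) = ⊤ := by
  have hμ := mu_ne r1 hY hN hw
  set W := Submodule.span K (Set.range (vv Y Z w)) with hW
  have hm : ∀ k, vv Y Z w k ∈ W := fun k => Submodule.subset_span ⟨k, rfl⟩
  have inv : ∀ T : Matrix (Fin 4) (Fin 4) K, (∀ k, T *ᵥ vv Y Z w k ∈ W) → ∀ u ∈ W, T *ᵥ u ∈ W := by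
    intro T hT u hu
    have hle : W ≤ W.comap (Matrix.toLin' T) := by
      rw [hW, Submodule.span_le]
      rintro _ ⟨k, rfl⟩
      show Matrix.toLin' T (vv Y Z w k) ∈ Submodule.span K (Set.range (vv Y Z w))
      rw [Matrix.toLin'_apply]
      exact hT k
    have := hle hu
    rw [Submodule.mem_comap, Matrix.toLin'_apply] at this
    exact this
  have hy : ∀ k : ℕ, μ / 4 ^ k ≠ 0 := fun k => div_ne_zero hμ (by positivity)
  have hXv : ∀ k, X *ᵥ vv Y Z w k ∈ W := by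
    intro k
    rw [X_vv r1 _ _ (hy k) (Y_vv r2 hY k)]
    apply W.smul_mem
    cases k with
    | zero =>
      have : (1 - X * Y) *ᵥ vv Y Z w 0 = 0 := by simpa [vv] using hN
      rw [this, sub_zero]
      exact hm 0
    | succ k =>
      rw [N_vv r1 r2 r3 hY hN]
      exact W.sub_mem (hm _) (W.smul_mem _ (hm k))
  have hXiv : ∀ k, Xi *ᵥ vv Y Z w k ∈ W := by
    intro k
    have hX1 : ∀ u : Fin 4 → K, Xi *ᵥ (X *ᵥ u) = u := by
      intro u
      rw [Matrix.mulVec_mulVec, hxi, Matrix.one_mulVec]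
    induction k with
    | zero =>
      have h0 := X_vv r1 _ _ (hy 0) (Y_vv (w := w) r2 hY 0)
      have : (1 - X * Y) *ᵥ vv Y Z w 0 = 0 := by simpa [vv] using hN
      rw [this, sub_zero] at h0
      have h1 : vv Y Z w 0 = (μ / 4 ^ 0) • (X *ᵥ vv Y Z w 0) := by
        rw [h0, smul_smul, mul_inv_cancel₀ (hy 0), one_smul]
      rw [h1, Matrix.mulVec_smul, hX1]
      exact W.smul_mem _ (hm 0)
    | succ k ih =>
      have h0 := X_vv r1 _ _ (hy (k + 1)) (Y_vv (w := w) r2 hY (k + 1))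
      rw [N_vv r1 r2 r3 hY hN] at h0
      have h1 : vv Y Z w (k + 1) = (μ / 4 ^ (k + 1)) • (X *ᵥ vv Y Z w (k + 1)) +
          nu (μ ^ 2) (k + 1) • vv Y Z w k := by
        rw [h0, smul_smul, mul_inv_cancel₀ (hy (k + 1)), one_smul, sub_add_cancel]
      rw [h1, Matrix.mulVec_add, Matrix.mulVec_smul, hX1, Matrix.mulVec_smul]
      exact W.add_mem (W.smul_mem _ (hm _)) (W.smul_mem _ ih)
  rcases hirr W (inv X hXv) (inv Xi hXiv)
    (inv Y fun k => by rw [Y_vv r2 hY]; exact W.smul_mem _ (hm k))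
    (inv Z fun k => by
      rw [Z_vv r2 k _ (hy k) (Y_vv r2 hY k)]
      exact W.smul_mem _ (W.sub_mem (hm k) (W.smul_mem _ (hm _)))) with h | h
  · exfalso
    apply hw
    have := hm 0
    rw [h, Submodule.mem_bot] at this
    simpa [vv] using this
  · exact h

omit r1 r3 in
lemma vv_four (hμ : μ ≠ 0) (hY : Y *ᵥ w = μ • w) : vv Y Z w 4 = 0 := by
  by_contra h4
  have hne : ∀ k ≤ 4, vv Y Z w k ≠ 0 := by
    intro k hk h
    apply h4
    have : ∀ j, vv Y Z w (k + j) = 0 := by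
      intro j
      induction j with
      | zero => exact h
      | succ j ih => rw [← add_assoc, vv_succ, ih, Matrix.mulVec_zero]
    have := this (4 - k)
    rwa [Nat.add_sub_cancel' hk] at this
  have hli : LinearIndependent K (fun k : Fin 5 => vv Y Z w k) := by
    apply Module.End.eigenvectors_linearIndependent' (Matrix.toLin' Y)
      (fun k : Fin 5 => μ / 4 ^ (k : ℕ))
    · intro a b hab
      simp only at hab
      have h1 : (4 : K) ^ (a : ℕ) ≠ 0 := by positivity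
      have h2 : (4 : K) ^ (b : ℕ) ≠ 0 := by positivity
      rw [div_eq_div_iff h1 h2] at hab
      have h3 := mul_left_cancel₀ hμ hab
      have h4 : (b : ℕ) = a := Nat.pow_right_injective (le_refl 2 |>.trans (by norm_num : 2 ≤ 4))
        (by exact_mod_cast h3)
      exact Fin.ext h4.symm
    · intro k
      rw [Module.End.hasEigenvector_iff]
      refine ⟨?_, hne k (by omega)⟩
      rw [Module.End.mem_eigenspace_iff, Matrix.toLin'_apply]
      exact Y_vv r2 hY k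
  have := hli.fintype_card_le_finrank
  simp at this

end

end Q8.LEO
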