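import Pool.Agent.Q8.LEO.Final

namespace Q8.LEO

open Matrix

variable {K : Type*} [Field K] [LinearOrder K] [IsStrictOrderedRing K]

lemma rel_of {n : ℕ} {S T : Matrix (Fin n) (Fin n) K}
    (h : ((2 : K) - 2⁻¹)⁻¹ • ((2 : K) • (S * T) - (2 : K)⁻¹ • (T * S)) = 1) :
    4 • (S * T) - T * S = 3 • (1 : Matrix (Fin n) (Fin n) K) := by
  have h1 : (3 : K) • (((2 : K) - 2⁻¹)⁻¹ • ((2 : K) • (S * T) - (2 : K)⁻¹ • (T * S))) =
      (4 : K) • (S * T) - T * S := by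
    rw [smul_smul, smul_sub, smul_smul, smul_smul]
    norm_num
  rw [h] at h1
  simp only [ofNat_smul_eq_nsmul] at h1
  exact h1.symm

lemma eq_zero_of_head {θ : K} {v : Fin 4 → K} (h : AA *ᵥ v = θ • v) (h0 : v 0 = 0) : v = 0 := by
  have e0 := congrFun h 0
  have e1 := congrFun h 1
  have e2 := congrFun h 2
  simp [AA, Matrix.mulVec, dotProduct, Fin.sum_univ_four] at e0 e1 e2
  rw [h0] at e0 e1
  have h1 : v 1 = 0 := by
    simpa using e0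
  rw [h1] at e1 e2
  have h2 : v 2 = 0 := by
    simpa using e1
  rw [h2] at e2
  have h3 : v 3 = 0 := by
    simpa using e2
  funext i
  fin_cases i
  · exact h0
  · exact h1
  · exact h2
  · exact h3

section
variable {X Xi Y Z : Matrix (Fin 4) (Fin 4) K}
  (r1 : 4 • (X * Y) - Y * X = 3 • (1 : Matrix (Fin 4) (Fin 4) K))
include r1

lemma YX_eq : Y * X = 1 - (4 : K) • (1 - X * Y) := by
  have : Y * X = 4 • (X * Y) - 3 • (1 : Matrix (Fin 4) (Fin 4) K) := by rw [← r1]; abel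
  rw [this]
  simp only [ofNat_smul_eq_nsmul]
  noncomm_ring

lemma NX_eq : (1 - X * Y) * X = (4 : K) • (X * (1 - X * Y)) := by
  have h := YX_eq r1
  have e : (1 - X * Y) * X = X * (1 - Y * X) := by noncomm_ring
  rw [e, h, sub_sub_cancel, Matrix.mul_smul]

lemma NY_eq : (4 : K) • ((1 - X * Y) * Y) = Y * (1 - X * Y) := by
  have h := YX_eq r1
  have e : Y * (1 - X * Y) = (1 - Y * X) * Y := by noncomm_ring
  rw [e, h, sub_sub_cancel, Matrix.smul_mul]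

lemma ker_N (hx : X * Xi = 1) : ∃ u : Fin 4 → K, u ≠ 0 ∧ (1 - X * Y) *ᵥ u = 0 := by
  have h := congrArg Matrix.det (NX_eq r1)
  rw [Matrix.det_smul, Matrix.det_mul, Matrix.det_mul, Fintype.card_fin] at h
  have hd : X.det ≠ 0 := by
    intro h0
    have := congrArg Matrix.det hx
    rw [Matrix.det_mul, h0, zero_mul, Matrix.det_one] at this
    exact zero_ne_one this
  have h1 : (1 - X * Y).det = 0 := by
    have : (1 - X * Y).det * X.det * 255 = 0 := by linear_combination -h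
    simpa [hd] using this
  obtain ⟨u, hu, hu'⟩ := Matrix.exists_mulVec_eq_zero_iff.2 h1
  exact ⟨u, hu, hu'⟩

lemma ker_X {u : Fin 4 → K} (hu : (1 - X * Y) *ᵥ u = 0) : (1 - X * Y) *ᵥ (X *ᵥ u) = 0 := by
  rw [Matrix.mulVec_mulVec, NX_eq r1, Matrix.smul_mulVec, ← Matrix.mulVec_mulVec, hu,
    Matrix.mulVec_zero, smul_zero]

lemma ker_Y {u : Fin 4 → K} (hu : (1 - X * Y) *ᵥ u = 0) : (1 - X * Y) *ᵥ (Y *ᵥ u) = 0 := by
  have h : (4 : K) • ((1 - X * Y) *ᵥ (Y *ᵥ u)) = 0 := by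
    rw [Matrix.mulVec_mulVec, ← Matrix.smul_mulVec, NY_eq r1, ← Matrix.mulVec_mulVec, hu,
      Matrix.mulVec_zero]
  exact (smul_eq_zero.1 h).resolve_left (by norm_num)

omit r1 in
lemma XY_ker {u : Fin 4 → K} (hu : (1 - X * Y) *ᵥ u = 0) : X *ᵥ (Y *ᵥ u) = u := by
  rw [Matrix.sub_mulVec, Matrix.one_mulVec, ← Matrix.mulVec_mulVec, sub_eq_zero] at hu
  exact hu.symm

lemma YX_ker {u : Fin 4 → K} (hu : (1 - X * Y) *ᵥ u = 0) : Y *ᵥ (X *ᵥ u) = u := by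
  rw [Matrix.mulVec_mulVec, YX_eq r1, Matrix.sub_mulVec, Matrix.smul_mulVec, hu, smul_zero,
    sub_zero, Matrix.one_mulVec]

variable {a : Fin 4 → K} (hA : (AA : Matrix (Fin 4) (Fin 4) K) =
  a 0 • 1 + a 1 • X + a 2 • Y + a 3 • (X * Y))
include hA

omit r1 in
lemma A_ker {u : Fin 4 → K} (hu : (1 - X * Y) *ᵥ u = 0) :
    AA *ᵥ u = a 0 • u + a 1 • (X *ᵥ u) + a 2 • (Y *ᵥ u) + a 3 • u := by
  rw [hA, Matrix.add_mulVec, Matrix.add_mulVec, Matrix.add_mulVec, Matrix.smul_mulVec,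
    Matrix.smul_mulVec, Matrix.smul_mulVec, Matrix.smul_mulVec, Matrix.one_mulVec,
    ← Matrix.mulVec_mulVec, XY_ker hu]

lemma ker_A {u : Fin 4 → K} (hu : (1 - X * Y) *ᵥ u = 0) (c : K) :
    (1 - X * Y) *ᵥ ((AA - c • (1 : Matrix (Fin 4) (Fin 4) K)) *ᵥ u) = 0 := by
  have e : (AA - c • (1 : Matrix (Fin 4) (Fin 4) K)) *ᵥ u = AA *ᵥ u - c • u := by
    rw [Matrix.sub_mulVec, Matrix.smul_mulVec, Matrix.one_mulVec]
  rw [e, A_ker hA hu, Matrix.mulVec_sub, Matrix.mulVec_add, Matrix.mulVec_add, Matrix.mulVec_add, Matrix.mulVec_smul,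
    Matrix.mulVec_smul, Matrix.mulVec_smul, Matrix.mulVec_smul, Matrix.mulVec_smul, hu,
    ker_X r1 hu, ker_Y r1 hu]
  simp

lemma exists_w (hx : X * Xi = 1) : ∃ (w : Fin 4 → K) (μ : K), w ≠ 0 ∧ (1 - X * Y) *ᵥ w = 0 ∧
    Y *ᵥ w = μ • w := by
  obtain ⟨u, hu, hN⟩ := ker_N r1 hx
  have hp : pol (AA : Matrix (Fin 4) (Fin 4) K) *ᵥ u = 0 := by rw [pol_AA, Matrix.zero_mulVec]
  unfold pol at hp
  rw [← Matrix.mulVec_mulVec, ← Matrix.mulVec_mulVec, ← Matrix.mulVec_mulVec] at hp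
  have step : ∀ (c : K) (v : Fin 4 → K), (AA - c • (1 : Matrix (Fin 4) (Fin 4) K)) *ᵥ v = 0 →
      AA *ᵥ v = c • v := by
    intro c v h
    rw [Matrix.sub_mulVec, Matrix.smul_mulVec, Matrix.one_mulVec, sub_eq_zero] at h
    exact h
  have hw : ∃ (w : Fin 4 → K) (θ : K), w ≠ 0 ∧ (1 - X * Y) *ᵥ w = 0 ∧ AA *ᵥ w = θ • w := by
    set u1 := (AA - (-60 : K) • (1 : Matrix (Fin 4) (Fin 4) K)) *ᵥ u with hu1
    have k1 : (1 - X * Y) *ᵥ u1 = 0 := ker_A r1 hA hN _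
    by_cases z1 : u1 = 0
    · exact ⟨u, -60, hu, hN, step _ _ (by rw [← hu1, z1])⟩
    set u2 := (AA - (0 : K) • (1 : Matrix (Fin 4) (Fin 4) K)) *ᵥ u1 with hu2
    have k2 : (1 - X * Y) *ᵥ u2 = 0 := ker_A r1 hA k1 _
    by_cases z2 : u2 = 0
    · exact ⟨u1, 0, z1, k1, step _ _ (by rw [← hu2, z2])⟩
    set u3 := (AA - (60 : K) • (1 : Matrix (Fin 4) (Fin 4) K)) *ᵥ u2 with hu3
    have k3 : (1 - X * Y) *ᵥ u3 = 0 := ker_A r1 hA k2 _
    by_cases z3 : u3 = 0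
    · exact ⟨u2, 60, z2, k2, step _ _ (by rw [← hu3, z3])⟩
    exact ⟨u3, 255, z3, k3, step _ _ hp⟩
  obtain ⟨w, θ, hw0, hwN, hwA⟩ := hw
  refine ⟨w, (Y *ᵥ w) 0 / w 0, hw0, hwN, ?_⟩
  have hne : w 0 ≠ 0 := fun h => hw0 (eq_zero_of_head hwA h)
  have hcomm : AA *ᵥ (Y *ᵥ w) = θ • (Y *ᵥ w) := by
    have e : θ • (Y *ᵥ w) = Y *ᵥ (AA *ᵥ w) := by rw [hwA, Matrix.mulVec_smul]
    rw [e, A_ker hA (ker_Y r1 hwN), XY_ker hwN, A_ker hA hwN,
      Matrix.mulVec_add, Matrix.mulVec_add, Matrix.mulVec_add, Matrix.mulVec_smul,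
      Matrix.mulVec_smul, Matrix.mulVec_smul, Matrix.mulVec_smul, YX_ker r1 hwN]
  have hz : (Y *ᵥ w - ((Y *ᵥ w) 0 / w 0) • w) = 0 := by
    apply eq_zero_of_head (θ := θ)
    · rw [Matrix.mulVec_sub, Matrix.mulVec_smul, hcomm, hwA, smul_sub, smul_comm]
    · simp only [Pi.sub_apply, Pi.smul_apply, smul_eq_mul]
      rw [div_mul_cancel₀ _ hne, sub_self]
  exact sub_eq_zero.1 hz

end

end Q8.LEO
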