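import Pool.Agent.Q8.LEO.Defs

namespace Q8.LEO

open Matrix

variable {K : Type*} [Field K] [LinearOrder K] [IsStrictOrderedRing K]

/-- the map `A` -/
def AA : Matrix (Fin 4) (Fin 4) K :=
  !![-4, 4144, 0, 0; 1, 119, 15400, 0; 0, 1, 116, 2464; 0, 0, 1, 24]

/-- the map `A*` -/
def BB : Matrix (Fin 4) (Fin 4) K :=
  !![62, 0, 0, 0; 0, 8, 0, 0; 0, 0, -28, 0; 0, 0, 0, -127]

/-- eigenvalues of `A` -/
def th : Fin 4 → K := ![255, 60, 0, -60]

/-- eigenvalues of `A*` -/
def ts : Fin 4 → K := ![62, 8, -28, -127]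

/-- eigenvectors of `A` -/
def PP : Matrix (Fin 4) (Fin 4) K :=
  !![474320, -290080, 331520, -911680; 29645, -4480, 320, 12320; 231, 36, -24, -84; 1, 1, 1, 1]

/-- the inverse of `PP` -/
def PI : Matrix (Fin 4) (Fin 4) K :=
  !![1/15663375, 37/2237625, 296/149175, 9472/447525; -1/1404000, -2/43875, 11/1950, 3388/8775;
    1/918000, 1/229500, -77/15300, 5929/11475; -1/2268000, 1/40500, -7/2700, 154/2025]

/-- `A*` in the basis of eigenvectors of `A` -/
def BT : Matrix (Fin 4) (Fin 4) K :=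
  !![-632/65, -7104/1105, 0, 0; -7623/65, -2618/65, -60, 0; 0, -1365/17, -233/5, -693/5;
    0, 0, -102/5, 58/5]

lemma PP_PI : (PP : Matrix (Fin 4) (Fin 4) K) * PI = 1 := by
  apply Matrix.ext
  intro i j
  fin_cases i <;> fin_cases j <;>
    simp [PP, PI, Matrix.mul_apply, Fin.sum_univ_four] <;> norm_num

lemma PI_PP : (PI : Matrix (Fin 4) (Fin 4) K) * PP = 1 := by
  apply Matrix.ext
  intro i j
  fin_cases i <;> fin_cases j <;>
    simp [PP, PI, Matrix.mul_apply, Fin.sum_univ_four] <;> norm_num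

lemma A_PP : (AA : Matrix (Fin 4) (Fin 4) K) * PP = PP * diagonal th := by
  apply Matrix.ext
  intro i j
  rw [Matrix.mul_diagonal]
  fin_cases i <;> fin_cases j <;>
    simp [AA, PP, th, Matrix.mul_apply, Fin.sum_univ_four] <;> norm_num

lemma B_PP : (BB : Matrix (Fin 4) (Fin 4) K) * PP = PP * BT := by
  apply Matrix.ext
  intro i j
  fin_cases i <;> fin_cases j <;>
    simp [BB, PP, BT, Matrix.mul_apply, Fin.sum_univ_four] <;> norm_num

lemma tri_AA : Tri (AA : Matrix (Fin 4) (Fin 4) K) := by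
  constructor <;> intro i j h <;> fin_cases i <;> fin_cases j <;> simp [AA] at h ⊢

lemma tri_BT : Tri (BT : Matrix (Fin 4) (Fin 4) K) := by
  constructor <;> intro i j h <;> fin_cases i <;> fin_cases j <;> simp [BT] at h ⊢

lemma leonard : LeonardPair (AA : Matrix (Fin 4) (Fin 4) K) BB th ts := by
  constructor
  · refine ⟨1, 1, by simp, by simp, ?_, ?_⟩
    · rw [Matrix.one_mul, Matrix.mul_one]
      exact tri_AA
    · rw [Matrix.one_mul, Matrix.mul_one]
      apply Matrix.ext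
      intro i j
      fin_cases i <;> fin_cases j <;> simp [BB, ts, Matrix.diagonal]
  · refine ⟨PP, PI, PP_PI, PI_PP, ?_, ?_⟩
    · rw [Matrix.mul_assoc, B_PP, ← Matrix.mul_assoc, PI_PP, Matrix.one_mul]
      exact tri_BT
    · rw [Matrix.mul_assoc, A_PP, ← Matrix.mul_assoc, PI_PP, Matrix.one_mul]

end Q8.LEO
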